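import Mathlib

set_option autoImplicit false

open Set Filter Topology TopologicalSpace MeasureTheory

namespace Pool.Agent.H.MP_493890

lemma ccc {I Z : Type} (S : Z → Set I) (hS : ∀ z, (S z).Finite) (w : Z → I → Bool) {T : Set Z}
    (hT : ¬ T.Countable) : ∃ z ∈ T, ∃ z' ∈ T, z ≠ z' ∧ ∃ p : I → Bool,
      (∀ i ∈ S z, p i = w z i) ∧ ∀ i ∈ S z', p i = w z' i := by
  by_contra! h
  let _ : MeasurableSpace (I → Bool) := borel _
  have : BorelSpace (I → Bool) := ⟨rfl⟩
  let μ : Measure (I → Bool) := Measure.addHaarMeasure ⊤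
  have hμ : IsProbabilityMeasure μ := ⟨Measure.addHaarMeasure_self⟩
  have o : ∀ z, IsOpen {p : I → Bool | ∀ i ∈ S z, p i = w z i} := fun z => by
    convert (hS z).isOpen_biInter fun i _ =>
      (isOpen_discrete {w z i}).preimage (continuous_apply (A := fun _ => Bool) i) using 1
    ext; simp
  have := Measure.countable_meas_pos_of_disjoint_iUnion (μ := μ)
    (As := fun z : T => {p : I → Bool | ∀ i ∈ S z, p i = w z i}) (fun z => (o z).measurableSet)
    fun z z' e => disjoint_left.2 fun p a b => by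
      obtain ⟨i, c, d⟩ := h z z.2 z' z'.2 (fun k => e (Subtype.ext k)) p a
      exact d (b i c)
  exact hT (countable_univ_iff.1 (this.mono fun z _ => (o z).measure_pos μ ⟨w z, fun _ _ => rfl⟩))

abbrev I : Type := Set ℝ ⊕ ℕ ⊕ ℝ

open Classical in
noncomputable def e (d : ℝ × Option ℕ) : I → Bool :=
  Sum.elim (fun A => decide (d.1 ∈ A))
    (Sum.elim (fun k => decide (d.2 = some k)) fun w => decide (d = (w, none)))

def X : Type := (ℝ × Option ℕ) ⊕ ((I → Bool) × ℕ)

open Classical in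
noncomputable def φ (x : X) : I ⊕ ((I → Bool) × ℕ) ⊕ ℕ → Bool :=
  Sum.elim (Sum.elim e Prod.fst x)
    (Sum.elim (fun q => decide (x = .inr q)) fun n => decide (∃ p, x = .inr (p, n)))

noncomputable instance : TopologicalSpace X := induced φ inferInstance

lemma clop (j) (b : Bool) : IsClopen {x : X | φ x j = b} :=
  (isClopen_discrete {b}).preimage ((continuous_apply j).comp continuous_induced_dom)

lemma e_inj : e.Injective := by
  rintro ⟨z, o⟩ ⟨z', o'⟩ h
  have h1 := congrFun h (.inl {z})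
  have h2 := fun k => congrFun h (.inr (.inl k))
  simp only [e, Sum.elim_inl, Sum.elim_inr, decide_eq_decide] at h1 h2
  exact Prod.ext (h1.1 rfl).symm (Option.ext h2)

lemma emb : IsEmbedding φ := ⟨⟨rfl⟩, by
  rintro (d | q) (d' | q') h
  · exact congrArg _ (e_inj (funext fun i => congrFun h (.inl i)))
  · simpa [φ] using congrFun h (.inr (.inl q'))
  · simpa [φ] using congrFun h (.inr (.inl q))
  · simpa [φ] using congrFun h (.inr (.inl q'))⟩

instance : T35Space X := emb.t35Space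

lemma op {U : Set X} (h : ∀ d, .inl d ∈ U → ∃ i, ∀ x, φ x (.inl i) = e d i → (∃ d, x = .inl d) →
    x ∈ U) (h' : ∀ q, .inr q ∈ U) : IsOpen U := isOpen_iff_forall_mem_open.2 fun x hx => by
  rcases x with d | q
  · obtain ⟨i, hi⟩ := h d hx
    refine ⟨_, fun x hx => ?_, (clop (.inl i) (e d i)).2, rfl⟩
    cases x
    exacts [hi _ hx ⟨_, rfl⟩, h' _]
  · exact ⟨_, fun x hx => by simp_all [φ], (clop (.inr (.inl q)) true).2, by simp [φ]⟩

lemma nb {U : Set X} (hU : IsOpen U) {d} (h : .inl d ∈ U) : ∃ S : Set I, S.Finite ∧ ∃ n,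
    ∀ p m, (∀ i ∈ S, p i = e d i) → n ≤ m → .inr (p, m) ∈ U := by
  obtain ⟨V, v1, rfl⟩ := isOpen_induced_iff.1 hU
  obtain ⟨T, u, u1, u2⟩ := isOpen_pi_iff.1 v1 _ h
  obtain ⟨n, hn⟩ := (T.finite_toSet.image (Sum.elim (fun _ => 0) (Sum.elim Prod.snd id))).bddAbove
  refine ⟨Sum.inl ⁻¹' (T : Set (I ⊕ ((I → Bool) × ℕ) ⊕ ℕ)), T.finite_toSet.preimage Sum.inl_injective.injOn, n + 1,
    fun p m h1 h2 => u2 fun j hj => ?_⟩
  have := hn ⟨j, hj, rfl⟩
  convert (u1 j hj).2 using 1
  rcases j with i | ⟨q, k⟩ | k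
  · exact h1 i hj
  · have : m ≠ k := by simp at this; omega
    simp only [φ, Sum.elim_inr, Sum.elim_inl, decide_eq_decide]
    exact iff_of_false (fun h => this (by cases h; rfl)) fun h => by cases h
  · have : m ≠ k := by simp at this; omega
    simp only [φ, Sum.elim_inr, decide_eq_decide]
    exact iff_of_false (fun ⟨_, h⟩ => by cases h; exact this rfl) fun ⟨_, h⟩ => by cases h

lemma not_normal : ¬ NormalSpace X := fun _ => by
  classical
  obtain ⟨U, V, u, v, h1, h2, h3⟩ := normal_separation (X := X)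
    (s := range fun z => .inl (z, none)) (t := range fun z : ℝ × ℕ => .inl (z.1, some z.2))
    ⟨op (by
      rintro ⟨z, _ | k⟩ h
      · exact (h ⟨z, rfl⟩).elim
      · refine ⟨.inr (.inl k), ?_⟩
        rintro _ a - ⟨w, rfl⟩
        simp [φ, e] at a) (by rintro q ⟨_, h⟩; cases h)⟩
    ⟨op (by
      rintro ⟨z, _ | k⟩ h
      · refine ⟨.inr (.inr z), ?_⟩
        rintro _ a - ⟨w, rfl⟩
        simp [φ, e] at a
      · exact (h ⟨(z, k), rfl⟩).elim) (by rintro q ⟨_, h⟩; cases h)⟩
    (disjoint_left.2 (by rintro _ ⟨z, rfl⟩ ⟨w, h⟩; cases h))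
  choose S s1 n s2 using fun z => nb u (h1 ⟨z, rfl⟩)
  choose T t1 m t2 using fun z => nb v (h2 ⟨z, rfl⟩)
  obtain ⟨k, hk⟩ : ∃ k, ¬ {z | .inr (.inl k) ∉ S z}.Countable := by
    by_contra! h
    refine Cardinal.not_countable_real ((countable_iUnion h).mono fun z _ => mem_iUnion.2 ?_)
    exact (((s1 z).preimage (f := fun k : ℕ => (.inr (.inl k) : I))
      (Sum.inr_injective.comp Sum.inl_injective).injOn).infinite_compl).nonempty
  obtain ⟨z, a, z', -, b, p, c, d⟩ := ccc (fun z => S z ∪ T (z, k)) (fun z => (s1 z).union (t1 _))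
    (fun z i => if i = .inr (.inl k) then true else e (z, none) i) hk
  refine disjoint_left.1 h3 (s2 z (Function.update p (.inr (.inr z')) false) _ (fun i hi => ?_)
    (le_max_left _ (m (z', k)))) (t2 (z', k) _ _ (fun i hi => ?_) (le_max_right _ _))
  · by_cases r : i = .inr (.inr z')
    · simp [r, e, b]
    · rw [Function.update_of_ne r, c i (.inl hi), if_neg (by rintro rfl; exact a hi)]
  · by_cases r : i = .inr (.inr z')
    · simp [r, e]
    · rw [Function.update_of_ne r, d i (.inr hi)]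
      rcases i with A | l | w
      · simp [e]
      · rcases eq_or_ne k l with rfl | t
        · simp [e]
        · simp [e, t, t.symm]
      · have : z' ≠ w := by rintro rfl; exact r rfl
        simp [e, this]

lemma fsigma (A : Set X) : ∃ C : Option ℕ ⊕ ℕ → ℕ → Set X, (∀ n m, IsClopen (C n m)) ∧
    A = ⋃ n, ⋂ m, C n m := by
  classical
  refine ⟨Sum.elim (fun o m => {x | φ x (.inl (.inl {z | .inl (z, o) ∈ A})) = true} ∩
    {x | φ x (.inl (.inr (.inl m))) = e (0, o) (.inr (.inl m))} ∩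
    {x | φ x (.inr (.inr m)) = false}) fun n _ => A ∩ {x | φ x (.inr (.inr n)) = true}, ?_, ?_⟩
  · rintro (o | n) m
    · exact ((clop _ _).inter (clop _ _)).inter (clop _ _)
    · have k : ∀ B : Set X, IsOpen (B ∩ {x | φ x (.inr (.inr n)) = true}) := fun B =>
        isOpen_iff_forall_mem_open.2 fun x hx => by
          obtain ⟨p, rfl⟩ : ∃ p, x = .inr (p, n) := by simpa [φ] using hx.2
          exact ⟨_, fun y hy => by simp_all [φ], (clop (.inr (.inl (p, n))) true).2, by simp [φ]⟩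
      refine ⟨⟨?_⟩, k A⟩
      convert (k Aᶜ).union (clop (.inr (.inr n)) true).compl.2 using 1
      ext x; by_cases x ∈ A <;> cases h : φ x (.inr (.inr n)) <;> simp [*]
  · ext x
    simp only [mem_iUnion, mem_iInter]
    rcases x with ⟨z, o⟩ | ⟨p, n⟩
    · refine ⟨fun h => ⟨.inl o, fun m => by simpa [φ, e] using h⟩, ?_⟩
      rintro ⟨o' | n, h⟩
      · have : o = o' := Option.ext fun k => by simpa [φ, e] using (h k).1.2
        simpa [φ, e, this] using (h 0).1.1
      · exact (h 0).1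
    · refine ⟨fun h => ⟨.inr n, fun m => ⟨h, decide_eq_true ⟨p, rfl⟩⟩⟩, ?_⟩
      rintro ⟨o' | k, h⟩
      · exact (of_decide_eq_false (h n).2 ⟨p, rfl⟩).elim
      · exact (h 0).1

end Pool.Agent.H.MP_493890
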